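import Pool.Agent.helper82.SW.SpecW
import Pool.Agent.helper64.TP.Basic

/-!
# Project sp, module WBR: the crossing of the bricks is the crossing of the Cardy part
-/

namespace Pool.Agent.helper82.SW

open MeasureTheory Filter Topology TopologicalSpace

/-- The site of the triangular lattice of the brick of a fine site. -/
def BR_g (w : ℤ × ℤ) : ℤ × ℤ := (((TP.br w).1 - (TP.br w).2) / 2, (TP.br w).2)

theorem BR_sh_g (w : ℤ × ℤ) : sh (BR_g w) = TP.br w := by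
  have h := TP.br_even w
  unfold sh BR_g
  ext
  · simp only
    omega
  · simp only

theorem BR_g_even {x y : ℤ} (h : (x + y) % 2 = 0) : BR_g (x, y) = ((x - y) / 2, y) := by
  unfold BR_g
  rw [TP.br_of_even h]

theorem BR_g_odd {x y : ℤ} (h : ¬ (x + y) % 2 = 0) : BR_g (x, y) = ((x - 1 - y) / 2, y) := by
  unfold BR_g TP.br
  rw [if_neg h]

theorem BR_adj {a c : ℤ × ℤ} (h : DP.Adj a c) : BR_g a = BR_g c ∨ SC.TAdj (BR_g a) (BR_g c) := by
  obtain ⟨a1, a2⟩ := a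
  obtain ⟨c1, c2⟩ := c
  obtain ⟨h1, h2⟩ := h
  unfold DP.sd at h1
  simp only [Int.even_iff] at h1 h2
  have hc1 : c1 = a1 ∨ c1 = a1 + 1 ∨ c1 = a1 - 1 := by omega
  have hc2 : c2 = a2 ∨ c2 = a2 + 1 ∨ c2 = a2 - 1 := by omega
  by_cases ha : (a1 + a2) % 2 = 0
  · by_cases hc : (c1 + c2) % 2 = 0
    · rw [BR_g_even ha, BR_g_even hc]
      rcases hc1 with rfl | rfl | rfl <;> rcases hc2 with rfl | rfl | rfl <;>
        simp only [SC.TAdj, Prod.mk.injEq, and_true, true_or] <;> omega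
    · rw [BR_g_even ha, BR_g_odd hc]
      rcases hc1 with rfl | rfl | rfl <;> rcases hc2 with rfl | rfl | rfl <;>
        simp only [SC.TAdj, Prod.mk.injEq, and_true, true_or] <;> omega
  · by_cases hc : (c1 + c2) % 2 = 0
    · rw [BR_g_odd ha, BR_g_even hc]
      rcases hc1 with rfl | rfl | rfl <;> rcases hc2 with rfl | rfl | rfl <;>
        simp only [SC.TAdj, Prod.mk.injEq, and_true, true_or] <;> omega
    · rw [BR_g_odd ha, BR_g_odd hc]
      rcases hc1 with rfl | rfl | rfl <;> rcases hc2 with rfl | rfl | rfl <;>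
        simp only [SC.TAdj, Prod.mk.injEq, and_true, true_or] <;> omega

theorem BR_same {R : Set (ℤ × ℤ)} {b : ℤ × ℤ → Bool} {w w' : ℤ × ℤ} (hw : w ∈ R) (hw' : w' ∈ R)
    (h : TP.br w = TP.br w') (hb : b (TP.br w) = true) : DP.Conn (TP.col b) true R w w' := by
  refine ⟨⟨hw, hb⟩, ?_⟩
  by_cases e : w = w'
  · rw [e]
  · refine Relation.ReflTransGen.single ⟨TP.br_adj h e, hw', ?_⟩
    show b (TP.br w') = true
    rw [← h]
    exact hb

theorem BR_step {m h : ℤ} (u v : ℤ × ℤ) (huv : SC.TAdj u v)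
    (hu : 0 ≤ u.2 ∧ u.2 ≤ h ∧ 0 ≤ 2 * u.1 + u.2 ∧ 2 * u.1 + u.2 ≤ m)
    (hv : 0 ≤ v.2 ∧ v.2 ≤ h ∧ 0 ≤ 2 * v.1 + v.2 ∧ 2 * v.1 + v.2 ≤ m) :
    ∃ w w' : ℤ × ℤ, w ∈ DP.rect 1 m 0 h ∧ w' ∈ DP.rect 1 m 0 h ∧ TP.br w = sh u ∧ TP.br w' = sh v ∧
      DP.Adj w w' := by
  obtain ⟨u1, u2⟩ := u
  obtain ⟨v1, v2⟩ := v
  unfold SC.TAdj at huv
  simp only [Prod.mk.injEq] at huv
  dsimp only at hu hv
  -- general tool
  have key : ∀ x y x' y' : ℤ, 1 ≤ x → x ≤ m → 0 ≤ y → y ≤ h → 1 ≤ x' → x' ≤ m → 0 ≤ y' → y' ≤ h →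
      (2 * u1 + u2 = x ∨ 2 * u1 + u2 = x - 1) → u2 = y → (2 * v1 + v2 = x' ∨ 2 * v1 + v2 = x' - 1) →
      v2 = y' → DP.Adj (x, y) (x', y') →
      ∃ w w' : ℤ × ℤ, w ∈ DP.rect 1 m 0 h ∧ w' ∈ DP.rect 1 m 0 h ∧ TP.br w = sh (u1, u2) ∧
        TP.br w' = sh (v1, v2) ∧ DP.Adj w w' := by
    intro x y x' y' h1 h2 h3 h4 h5 h6 h7 h8 h9 h10 h11 h12 h13
    refine ⟨(x, y), (x', y'), ⟨h1, h2, h3, h4⟩, ⟨h5, h6, h7, h8⟩, ?_, ?_, h13⟩
    · unfold TP.br sh
      split_ifs with h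
      · simp only [Prod.mk.injEq, and_true]; simp only at h; omega
      · simp only [Prod.mk.injEq, and_true]; simp only at h; omega
    · unfold TP.br sh
      split_ifs with h
      · simp only [Prod.mk.injEq, and_true]; simp only at h; omega
      · simp only [Prod.mk.injEq, and_true]; simp only at h; omega
  have adjH : ∀ x y : ℤ, DP.Adj (x, y) (x + 1, y) := fun x y => by
    refine ⟨?_, Or.inr (Or.inl rfl)⟩
    unfold DP.sd
    simp only
    omega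
  have adjH' : ∀ x y : ℤ, DP.Adj (x + 1, y) (x, y) := fun x y => by
    refine ⟨?_, Or.inr (Or.inl rfl)⟩
    unfold DP.sd
    simp only
    omega
  have adjV : ∀ x y : ℤ, DP.Adj (x, y) (x, y + 1) := fun x y => by
    refine ⟨?_, Or.inl rfl⟩
    unfold DP.sd
    simp only
    omega
  have adjV' : ∀ x y : ℤ, DP.Adj (x, y + 1) (x, y) := fun x y => by
    refine ⟨?_, Or.inl rfl⟩
    unfold DP.sd
    simp only
    omega
  rcases huv with h1 | h1 | h1 | h1 | h1 | h1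
  · -- v = u + (1, 0)
    refine key (2 * u1 + u2 + 1) u2 (2 * u1 + u2 + 1 + 1) u2 ?_ ?_ ?_ ?_ ?_ ?_ ?_ ?_ ?_ ?_ ?_ ?_
      (adjH _ _) <;> omega
  · -- v = u - (1, 0)
    refine key (2 * v1 + v2 + 1 + 1) v2 (2 * v1 + v2 + 1) v2 ?_ ?_ ?_ ?_ ?_ ?_ ?_ ?_ ?_ ?_ ?_ ?_
      (adjH' _ _) <;> omega
  · -- v = u + (0, 1)
    refine key (2 * u1 + u2 + 1) u2 (2 * u1 + u2 + 1) (u2 + 1) ?_ ?_ ?_ ?_ ?_ ?_ ?_ ?_ ?_ ?_ ?_ ?_
      (adjV _ _) <;> omega
  · -- v = u - (0, 1)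
    refine key (2 * v1 + v2 + 1) (v2 + 1) (2 * v1 + v2 + 1) v2 ?_ ?_ ?_ ?_ ?_ ?_ ?_ ?_ ?_ ?_ ?_ ?_
      (adjV' _ _) <;> omega
  · -- v = u + (1, -1)
    refine key (2 * v1 + v2) (v2 + 1) (2 * v1 + v2) v2 ?_ ?_ ?_ ?_ ?_ ?_ ?_ ?_ ?_ ?_ ?_ ?_
      (adjV' _ _) <;> omega
  · -- v = u + (-1, 1)
    refine key (2 * u1 + u2) u2 (2 * u1 + u2) (u2 + 1) ?_ ?_ ?_ ?_ ?_ ?_ ?_ ?_ ?_ ?_ ?_ ?_
      (adjV _ _) <;> omega

theorem BR (hAD : AD_stmt) : BR_stmt := by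
  classical
  intro i b
  have htop : (SC.top (2 ^ i) : ℤ) = (TP.hh (2 ^ i) : ℤ) := by rw [hAD.2.2.1]
  have hm : ((2 ^ i : ℕ) : ℤ) = (2 : ℤ) ^ i := by push_cast; rfl
  have hm1 : (1 : ℤ) ≤ 2 ^ i := by
    have : 1 ≤ 2 ^ i := Nat.one_le_two_pow
    exact_mod_cast this
  set H : ℤ := (TP.hh (2 ^ i) : ℤ) with hH
  set m : ℤ := 2 * 2 ^ i with hmdef
  set W : Set (ℤ × ℤ) := ↑(SC.Usq (2 ^ i) \ (SC.Usq (2 ^ i)).filter fun v => b (sh v) = false) with hW
  have memW : ∀ v : ℤ × ℤ, v ∈ W ↔ (0 ≤ v.2 ∧ v.2 ≤ H ∧ 0 ≤ 2 * v.1 + v.2 ∧ 2 * v.1 + v.2 ≤ m) ∧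
      b (sh v) = true := by
    intro v
    rw [hW, Finset.mem_coe, Finset.mem_sdiff, Finset.mem_filter, SC.mem_Usq, htop, hm]
    constructor
    · rintro ⟨h1, h2⟩
      refine ⟨h1, ?_⟩
      by_contra h3
      exact h2 ⟨h1, by simpa using h3⟩
    · rintro ⟨h1, h2⟩
      refine ⟨h1, fun h3 => ?_⟩
      rw [h2] at h3
      exact absurd h3.2 (by simp)
  have hFc : b ∈ TP.Fc i ↔ ∃ u v : ℤ × ℤ, u.1 = 1 ∧ v.1 = m ∧
      DP.Conn (TP.col b) true (DP.rect 1 m 0 H) u v := Iff.rfl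
  have hLR : SC.LRb (2 ^ i) ((SC.Usq (2 ^ i)).filter fun v => b (sh v) = false) ↔
      ∃ u v : ℤ × ℤ, 2 * u.1 + u.2 ≤ 1 ∧ m - 1 ≤ 2 * v.1 + v.2 ∧ SC.Con W u v := by
    unfold SC.LRb
    rw [hm]
  rw [hFc, hLR]
  constructor
  · rintro ⟨u, v, hu1, hv1, huW, hpath⟩
    -- sites of the rectangle
    have hg : ∀ w : ℤ × ℤ, w ∈ DP.rect 1 m 0 H → TP.col b w = true → BR_g w ∈ W := by
      intro w hw hb
      rw [memW, BR_sh_g]
      refine ⟨?_, hb⟩
      obtain ⟨h1, h2, h3, h4⟩ := hw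
      have e1 := TP.br_fst w
      have e2 := TP.br_snd w
      have e3 := TP.br_even w
      unfold BR_g
      simp only
      omega
    have hpath' : ∀ v', Relation.ReflTransGen
        (fun a b' => DP.Adj a b' ∧ b' ∈ {w | w ∈ DP.rect 1 m 0 H ∧ TP.col b w = true}) u v' →
        Relation.ReflTransGen (fun a b' => SC.TAdj a b' ∧ b' ∈ W) (BR_g u) (BR_g v') := by
      intro v' hv'
      induction hv' with
      | refl => exact Relation.ReflTransGen.refl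
      | tail _ hbc ih =>
        rcases BR_adj hbc.1 with e | e
        · rw [← e]; exact ih
        · exact ih.tail ⟨e, hg _ hbc.2.1 hbc.2.2⟩
    have hvW : v ∈ {w | w ∈ DP.rect 1 m 0 H ∧ TP.col b w = true} := by
      rcases Relation.ReflTransGen.cases_tail hpath with e | ⟨c, _, hc⟩
      · rw [e]; exact huW
      · exact hc.2
    refine ⟨BR_g u, BR_g v, ?_, ?_, hg u huW.1 huW.2, hpath' v hpath⟩
    · have e1 := TP.br_fst u
      have e3 := TP.br_even u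
      unfold BR_g
      simp only
      omega
    · have e1 := TP.br_fst v
      have e3 := TP.br_even v
      unfold BR_g
      simp only
      omega
  · rintro ⟨u, v, hu1, hv1, huW, hpath⟩
    have huW' := (memW u).mp huW
    have hvW : v ∈ W := by
      rcases Relation.ReflTransGen.cases_tail hpath with e | ⟨c, _, hc⟩
      · rw [e]; exact huW
      · exact hc.2
    have hvW' := (memW v).mp hvW
    -- the first site
    have brp : ∀ (v : ℤ × ℤ) (x : ℤ), (x = 2 * v.1 + v.2 ∨ x = 2 * v.1 + v.2 + 1) →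
        TP.br (x, v.2) = sh v := by
      intro v x hx
      unfold TP.br sh
      split_ifs with h
      · simp only [Prod.mk.injEq, and_true]; simp only at h; omega
      · simp only [Prod.mk.injEq, and_true]; simp only at h; omega
    have hu0 : TP.br (1, u.2) = sh u := brp u 1 (by omega)
    have hv0 : TP.br (m, v.2) = sh v := brp v m (by omega)
    refine ⟨(1, u.2), (m, v.2), rfl, rfl, ?_⟩
    have huR : ((1, u.2) : ℤ × ℤ) ∈ DP.rect 1 m 0 H :=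
      ⟨le_rfl, by simp only; omega, huW'.1.1, huW'.1.2.1⟩
    have hvR : ((m, v.2) : ℤ × ℤ) ∈ DP.rect 1 m 0 H :=
      ⟨by simp only; omega, le_rfl, hvW'.1.1, hvW'.1.2.1⟩
    have key : ∀ v', Relation.ReflTransGen (fun a b' => SC.TAdj a b' ∧ b' ∈ W) u v' →
        v' ∈ W ∧ ∀ w ∈ DP.rect 1 m 0 H, TP.br w = sh v' →
          DP.Conn (TP.col b) true (DP.rect 1 m 0 H) (1, u.2) w := by
      intro v' hv'
      induction hv' with
      | refl =>
        refine ⟨huW, fun w hw hwb => ?_⟩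
        refine BR_same huR hw (by rw [hu0, hwb]) ?_
        rw [hu0]
        exact huW'.2
      | tail _ hbc ih =>
        rename_i y z _
        obtain ⟨hyW, ihy⟩ := ih
        have hz' := (memW z).mp hbc.2
        have hy' := (memW y).mp hyW
        refine ⟨hbc.2, fun w hw hwb => ?_⟩
        obtain ⟨p, q, hp, hq, hpb, hqb, hpq⟩ := BR_step y z hbc.1 hy'.1 hz'.1
        have c1 := ihy p hp hpb
        have c2 : DP.Conn (TP.col b) true (DP.rect 1 m 0 H) (1, u.2) q := by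
          refine ⟨c1.1, c1.2.tail ⟨hpq, hq, ?_⟩⟩
          show b (TP.br q) = true
          rw [hqb]
          exact hz'.2
        refine DP.Conn.trans c2 (BR_same hq hw (by rw [hqb, hwb]) ?_)
        rw [hqb]
        exact hz'.2
    exact (key v hpath).2 _ hvR hv0

end Pool.Agent.helper82.SW
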